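import Pool.Agent.Y249.BG.Growth3
import Pool.Agent.Y249.BG.Translate2
import Pool.Agent.Y249.BG.SSO

/-!
Every sequence of positive integers with `a (n+1) / a n > 1 + 1 / log log n` for `n ≥ 3` is strong
sweeping out.  More is true: it is enough that `a (n+1) / a n ≥ 1 + c / log n` for all large `n`,
for some constant `c > 0`.
-/

set_option autoImplicit false

namespace Pool.Agent.Results.MP_5a8dcb_an.LogRatio

open MeasureTheory Filter

/-- The sequence `a 1, a 2, ...` is strong sweeping out: in every aperiodic system `(X, μ, T)` (a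
probability space whose measurable sets contain a countable family separating the points, for
instance a standard Borel or a Lebesgue space, with a measure-preserving, not necessarily
invertible, map `T` such that `T^k x ≠ x` almost everywhere for every `k ≥ 1`) and for every
`ε > 0` there is a measurable `E` with `μ E < ε` whose averages
`(1/N) ∑_{n=1}^N 1_E (T^{a n} x)` have upper limit `1` and lower limit `0` for almost every `x`. -/
def StrongSweepingOut (a : ℕ → ℕ) : Prop :=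
  ∀ (X : Type) [MeasurableSpace X] [MeasurableSpace.CountablySeparated X] (μ : Measure X)
    [IsProbabilityMeasure μ] (T : X → X), MeasurePreserving T μ μ →
    (∀ k : ℕ, 1 ≤ k → μ {x | T^[k] x = x} = 0) →
    ∀ ε : ℝ, 0 < ε → ∃ E : Set X, MeasurableSet E ∧ μ E < ENNReal.ofReal ε ∧
      ∀ᵐ x ∂μ,
        limsup (fun N : ℕ => (1 / (N : ℝ)) *
          ∑ n ∈ Finset.Icc 1 N, E.indicator (fun _ => (1 : ℝ)) (T^[a n] x)) atTop = 1 ∧
        liminf (fun N : ℕ => (1 / (N : ℝ)) *
          ∑ n ∈ Finset.Icc 1 N, E.indicator (fun _ => (1 : ℝ)) (T^[a n] x)) atTop = 0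

theorem main (a : ℕ → ℕ) (ha : ∀ n : ℕ, 1 ≤ n → 0 < a n) (c : ℝ) (hc : 0 < c) (n₀ : ℕ)
    (hg : ∀ n : ℕ, n₀ ≤ n → 1 + c / Real.log (n : ℝ) ≤ (a (n + 1) : ℝ) / (a n : ℝ)) :
    StrongSweepingOut a := by
  intro X _ _ μ _ T hT hap ε hε
  set b : ℕ → ℕ := Function.update a 0 1 with hb
  have hb0 : ∀ n, 1 ≤ n → b n = a n := fun n hn => Function.update_of_ne (by omega) _ _
  have hbpos : ∀ n, 0 < b n := by
    intro n
    rcases Nat.eq_zero_or_pos n with rfl | hn
    · rw [hb, Function.update_self]; exact one_pos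
    · rw [hb0 n hn]; exact ha n hn
  have hbg : ∃ n₁ : ℕ, ∀ n ≥ n₁, ((b (n + 1) : ℝ) / (b n : ℝ)) ≥ 1 + c / Real.log (n : ℝ) := by
    refine ⟨max n₀ 1, fun n hn => ?_⟩
    rw [hb0 n ((le_max_right _ _).trans hn), hb0 (n + 1) (by omega)]
    exact hg n ((le_max_left _ _).trans hn)
  have hcyc : Y249.BG.CycIn b := Y249.BG.cyclic2 b
    (fun p hp C Nmin => Y249.BG.comb3 b hbpos c hc hbg p hp C Nmin)
  obtain ⟨E, hE, hμE, hlim⟩ := Y249.BG.sso μ T hT hap b hcyc (ENNReal.ofReal ε)
    (ENNReal.ofReal_pos.2 hε)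
  refine ⟨E, hE, hμE, ?_⟩
  filter_upwards [hlim] with x hx
  have e : Y249.BG.avg b T E x = fun N : ℕ => (1 / (N : ℝ)) *
      ∑ n ∈ Finset.Icc 1 N, E.indicator (fun _ => (1 : ℝ)) (T^[a n] x) := by
    funext N
    unfold Y249.BG.avg
    congr 1
    refine Finset.sum_congr rfl fun n hn => ?_
    rw [hb0 n (Finset.mem_Icc.1 hn).1]
  rw [e] at hx
  exact hx

/-- Every sequence of positive integers with `a (n+1) / a n ≥ 1 + c / log n` for all large `n`
(`c > 0` a constant) is strong sweeping out; in particular every sequence of positive integers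
with `a (n+1) / a n > 1 + 1 / log log n` for all `n ≥ 3` is strong sweeping out. -/
theorem result :
    (∀ a : ℕ → ℕ, (∀ n : ℕ, 1 ≤ n → 0 < a n) →
      (∃ c : ℝ, 0 < c ∧ ∃ n₀ : ℕ, ∀ n : ℕ, n₀ ≤ n →
        1 + c / Real.log (n : ℝ) ≤ (a (n + 1) : ℝ) / (a n : ℝ)) → StrongSweepingOut a) ∧
    (∀ a : ℕ → ℕ, (∀ n : ℕ, 1 ≤ n → 0 < a n) →
      (∀ n : ℕ, 3 ≤ n →
        1 + 1 / Real.log (Real.log (n : ℝ)) < (a (n + 1) : ℝ) / (a n : ℝ)) →
      StrongSweepingOut a) := by
  refine ⟨fun a ha ⟨c, hc, n₀, hg⟩ => main a ha c hc n₀ hg, fun a ha hg => ?_⟩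
  refine main a ha 1 one_pos 3 fun n hn => ?_
  refine le_trans ?_ (hg n hn).le
  have h3 : (3 : ℝ) ≤ n := by exact_mod_cast hn
  have hlog : 1 < Real.log (n : ℝ) := by
    rw [Real.lt_log_iff_exp_lt (by linarith)]
    have := Real.exp_one_lt_d9
    linarith
  have hll : 0 < Real.log (Real.log (n : ℝ)) := Real.log_pos hlog
  have hle : Real.log (Real.log (n : ℝ)) ≤ Real.log (n : ℝ) := by
    have := Real.log_le_sub_one_of_pos (by linarith : (0 : ℝ) < Real.log n)
    linarith
  have := one_div_le_one_div_of_le hll hle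
  linarith

end Pool.Agent.Results.MP_5a8dcb_an.LogRatio
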